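import Pool.Agent.Helper6.NX.GoalsE
import Pool.Agent.Helper6.GP.Small

/-! Packet NX-MIXT: equidistribution of the lazy walk from a spectral gap. -/

namespace Pool.Agent.Helper56.NX

open Matrix Equiv Filter Topology Pool.Agent.Helper15.An Pool.Agent.Helper6.FixK
  Pool.Agent.Helper6.T5

variable {n k : ℕ}

theorem sum_walk (hk : 1 ≤ k) (z : Fin k → Alt n) (f : Alt n → ℝ) :
    ∑ g, walk z f g = ∑ g, f g := by
  have hk' : (0 : ℝ) < k := by exact_mod_cast hk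
  have h0 : ∀ w : Alt n, ∑ g, f (g * w) = ∑ g, f g := fun w =>
    Equiv.sum_comp (Equiv.mulRight w) f
  unfold walk
  rw [← Finset.mul_sum, Finset.sum_comm]
  have h1 : ∀ i : Fin k, ∑ g, (f (g * z i) + f (g * (z i)⁻¹)) = 2 * ∑ g, f g := by
    intro i
    rw [Finset.sum_add_distrib, h0, h0]; ring
  simp_rw [h1]
  rw [Finset.sum_const, Finset.card_univ, Fintype.card_fin, nsmul_eq_mul]
  field_simp

theorem sum_lwalk (hk : 1 ≤ k) (z : Fin k → Alt n) (f : Alt n → ℝ) :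
    ∑ g, lwalk z f g = ∑ g, f g := by
  unfold lwalk
  rw [← Finset.mul_sum, Finset.sum_add_distrib, sum_walk hk]
  ring

theorem neg_le_walk (hk : 1 ≤ k) (z : Fin k → Alt n) (f : Alt n → ℝ) :
    -∑ g, f g ^ 2 ≤ ∑ g, f g * walk z f g := by
  have hk' : (0 : ℝ) < k := by exact_mod_cast hk
  have h0 : ∀ w : Alt n, ∑ g, f (g * w) ^ 2 = ∑ g, f g ^ 2 := fun w =>
    Equiv.sum_comp (Equiv.mulRight w) (fun g => f g ^ 2)
  have h1 : ∀ w : Alt n, -∑ g, f g ^ 2 ≤ ∑ g, f g * f (g * w) := by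
    intro w
    have h2 : ∑ g, (-(1 / 2) * f g ^ 2 + -(1 / 2) * f (g * w) ^ 2) ≤ ∑ g, f g * f (g * w) := by
      refine Finset.sum_le_sum fun g _ => ?_
      nlinarith [sq_nonneg (f g + f (g * w))]
    rw [Finset.sum_add_distrib, ← Finset.mul_sum, ← Finset.mul_sum, h0] at h2
    linarith
  have h3 : ∑ g, f g * walk z f g = (2 * (k : ℝ))⁻¹ * ∑ i : Fin k,
      (∑ g, f g * f (g * z i) + ∑ g, f g * f (g * (z i)⁻¹)) := by
    unfold walk
    simp_rw [← Finset.sum_add_distrib]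
    rw [Finset.sum_comm, Finset.mul_sum]
    refine Finset.sum_congr rfl fun g _ => ?_
    rw [Finset.mul_sum, Finset.mul_sum, Finset.mul_sum]
    refine Finset.sum_congr rfl fun i _ => ?_
    ring
  have h4 : ∑ i : Fin k, (2 * -∑ g, f g ^ 2) ≤ ∑ i : Fin k,
      (∑ g, f g * f (g * z i) + ∑ g, f g * f (g * (z i)⁻¹)) := by
    refine Finset.sum_le_sum fun i _ => ?_
    have := h1 (z i)
    have := h1 (z i)⁻¹
    linarith
  rw [Finset.sum_const, Finset.card_univ, Fintype.card_fin, nsmul_eq_mul] at h4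
  rw [h3]
  have h5 := mul_le_mul_of_nonneg_left h4 (by positivity : (0 : ℝ) ≤ (2 * (k : ℝ))⁻¹)
  refine le_trans (le_of_eq ?_) h5
  field_simp

theorem lwalk_nonneg_form (hk : 1 ≤ k) (z : Fin k → Alt n) (f : Alt n → ℝ) :
    0 ≤ ∑ g, f g * lwalk z f g := by
  have h1 := neg_le_walk hk z f
  have h2 : ∑ g, f g * lwalk z f g = 1 / 2 * (∑ g, f g ^ 2 + ∑ g, f g * walk z f g) := by
    unfold lwalk
    rw [← Finset.sum_add_distrib, Finset.mul_sum]
    refine Finset.sum_congr rfl fun g _ => ?_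
    ring
  rw [h2]; linarith

theorem lwalk_lin (z : Fin k → Alt n) (f h : Alt n → ℝ) (s : ℝ) (g : Alt n) :
    lwalk z (fun a => s * f a + h a) g = s * lwalk z f g + lwalk z h g := by
  unfold lwalk walk
  have : ∑ i, (s * f (g * z i) + h (g * z i) + (s * f (g * (z i)⁻¹) + h (g * (z i)⁻¹))) =
      s * ∑ i, (f (g * z i) + f (g * (z i)⁻¹)) + ∑ i, (h (g * z i) + h (g * (z i)⁻¹)) := by
    rw [Finset.mul_sum, ← Finset.sum_add_distrib]
    refine Finset.sum_congr rfl fun i _ => ?_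
    ring
  rw [this]; ring

theorem form_cs (hk : 1 ≤ k) (z : Fin k → Alt n) (u v : Alt n → ℝ) :
    (∑ g, u g * lwalk z v g) ^ 2 ≤ (∑ g, u g * lwalk z u g) * ∑ g, v g * lwalk z v g := by
  have hs : ∑ g, v g * lwalk z u g = ∑ g, u g * lwalk z v g := by
    rw [← Pool.Agent.Helper6.GP.lwalk_symm]
    refine Finset.sum_congr rfl fun g _ => mul_comm _ _
  have h1 : ∀ s : ℝ, 0 ≤ (∑ g, v g * lwalk z v g) * (s * s) +
      (2 * ∑ g, u g * lwalk z v g) * s + ∑ g, u g * lwalk z u g := by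
    intro s
    have h2 := lwalk_nonneg_form hk z (fun a => s * v a + u a)
    have h3 : ∑ g, (s * v g + u g) * lwalk z (fun a => s * v a + u a) g =
        (∑ g, v g * lwalk z v g) * (s * s) +
      (2 * ∑ g, u g * lwalk z v g) * s + ∑ g, u g * lwalk z u g := by
      have h4 : ∀ g, (s * v g + u g) * lwalk z (fun a => s * v a + u a) g =
          s * s * (v g * lwalk z v g) + s * (v g * lwalk z u g) + s * (u g * lwalk z v g) +
            u g * lwalk z u g := by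
        intro g; rw [lwalk_lin]; ring
      simp_rw [h4, Finset.sum_add_distrib, ← Finset.mul_sum]
      rw [hs]; ring
    rw [h3] at h2
    exact h2
  have h5 := discrim_le_zero h1
  unfold discrim at h5
  nlinarith [h5]

theorem norm_lwalk (hk : 1 ≤ k) (z : Fin k → Alt n) {g : ℝ} (hg1 : g ≤ 1)
    (hgap : ∀ f : Alt n → ℝ, ∑ a, f a = 0 →
      ∑ a, f a * walk z f a ≤ (1 - g) * ∑ a, f a ^ 2) (f : Alt n → ℝ) (hf : ∑ a, f a = 0) :
    ∑ a, lwalk z f a ^ 2 ≤ (1 - g / 2) ^ 2 * ∑ a, f a ^ 2 := by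
  have hB : ∀ f : Alt n → ℝ, ∑ a, f a = 0 →
      ∑ a, f a * lwalk z f a ≤ (1 - g / 2) * ∑ a, f a ^ 2 := by
    intro f hf
    have h2 : ∑ g, f g * lwalk z f g = 1 / 2 * (∑ g, f g ^ 2 + ∑ g, f g * walk z f g) := by
      unfold lwalk
      rw [← Finset.sum_add_distrib, Finset.mul_sum]
      refine Finset.sum_congr rfl fun g _ => ?_
      ring
    have := hgap f hf
    rw [h2]; linarith
  have hc : 0 ≤ 1 - g / 2 := by linarith
  have h1 := form_cs hk z (lwalk z f) f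
  have h2 : ∑ a, lwalk z f a * lwalk z f a = ∑ a, lwalk z f a ^ 2 :=
    Finset.sum_congr rfl fun a _ => by ring
  rw [h2] at h1
  have h3 := hB (lwalk z f) (by rw [sum_lwalk hk]; exact hf)
  have h4 := hB f hf
  have hX : 0 ≤ ∑ a, lwalk z f a ^ 2 := Finset.sum_nonneg fun _ _ => sq_nonneg _
  have hY : 0 ≤ ∑ a, f a ^ 2 := Finset.sum_nonneg fun _ _ => sq_nonneg _
  have h5 : (∑ a, lwalk z f a ^ 2) ^ 2 ≤
      ((1 - g / 2) * ∑ a, lwalk z f a ^ 2) * ((1 - g / 2) * ∑ a, f a ^ 2) :=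
    h1.trans (mul_le_mul h3 h4 (lwalk_nonneg_form hk z f) (mul_nonneg hc hX))
  rcases hX.eq_or_lt with h0 | h0
  · rw [← h0]; positivity
  · have h6 : (∑ a, lwalk z f a ^ 2) * (∑ a, lwalk z f a ^ 2) ≤
        (∑ a, lwalk z f a ^ 2) * ((1 - g / 2) ^ 2 * ∑ a, f a ^ 2) := by
      calc _ = (∑ a, lwalk z f a ^ 2) ^ 2 := by ring
        _ ≤ _ := h5
        _ = _ := by ring
    exact le_of_mul_le_mul_left h6 h0

theorem norm_iter (hk : 1 ≤ k) (z : Fin k → Alt n) {g : ℝ} (hg1 : g ≤ 1)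
    (hgap : ∀ f : Alt n → ℝ, ∑ a, f a = 0 →
      ∑ a, f a * walk z f a ≤ (1 - g) * ∑ a, f a ^ 2) (f : Alt n → ℝ) (hf : ∑ a, f a = 0)
    (t : ℕ) : ∑ a, (lwalk z)^[t] f a = 0 ∧
    ∑ a, (lwalk z)^[t] f a ^ 2 ≤ ((1 - g / 2) ^ t) ^ 2 * ∑ a, f a ^ 2 := by
  induction t with
  | zero => exact ⟨hf, by simp⟩
  | succ t ih =>
    rw [Function.iterate_succ_apply' (lwalk z)]
    refine ⟨by rw [sum_lwalk hk]; exact ih.1, ?_⟩
    refine (norm_lwalk hk z hg1 hgap _ ih.1).trans ?_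
    calc (1 - g / 2) ^ 2 * ∑ a, (lwalk z)^[t] f a ^ 2
        ≤ (1 - g / 2) ^ 2 * (((1 - g / 2) ^ t) ^ 2 * ∑ a, f a ^ 2) :=
          mul_le_mul_of_nonneg_left ih.2 (sq_nonneg _)
      _ = _ := by ring

theorem thmMIXT : Pool.Agent.Helper6.NX.S_MIXT := by
  intro n k t x g hk hg hg1 hgap ht a h
  have hN : 0 < (Fintype.card (Alt n) : ℝ) := by exact_mod_cast Fintype.card_pos
  set N : ℝ := (Fintype.card (Alt n) : ℝ) with hNdef
  have h1 := lwalk_sub_const hk x (fun b => if b = h then (1 : ℝ) else 0) (1 / N) t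
  have hsum : ∑ b : Alt n, ((if b = h then (1 : ℝ) else 0) - 1 / N) = 0 := by
    rw [Finset.sum_sub_distrib, Finset.sum_ite_eq' Finset.univ h, Finset.sum_const,
      Finset.card_univ, nsmul_eq_mul, ← hNdef]
    simp
  have hsq : ∑ b : Alt n, ((if b = h then (1 : ℝ) else 0) - 1 / N) ^ 2 ≤ 1 := by
    have h2 : ∀ b : Alt n, ((if b = h then (1 : ℝ) else 0) - 1 / N) ^ 2 =
        (if b = h then (1 : ℝ) else 0) - 1 / N * (if b = h then (1 : ℝ) else 0) -
          1 / N * ((if b = h then (1 : ℝ) else 0) - 1 / N) := by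
      intro b
      split_ifs <;> ring
    simp_rw [h2]
    rw [Finset.sum_sub_distrib, Finset.sum_sub_distrib, ← Finset.mul_sum, ← Finset.mul_sum, hsum,
      Finset.sum_ite_eq' Finset.univ h]
    simp
    positivity
  have h3 := (norm_iter hk x hg1 hgap _ hsum t).2
  have h4 : (lwalk x)^[t] (fun b => (if b = h then (1 : ℝ) else 0) - 1 / N) a ^ 2 ≤
      ((1 - g / 2) ^ t) ^ 2 := by
    calc _ ≤ ∑ b, (lwalk x)^[t] (fun b => (if b = h then (1 : ℝ) else 0) - 1 / N) b ^ 2 :=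
          Finset.single_le_sum (f := fun b =>
            (lwalk x)^[t] (fun b => (if b = h then (1 : ℝ) else 0) - 1 / N) b ^ 2)
            (fun _ _ => sq_nonneg _) (Finset.mem_univ a)
      _ ≤ ((1 - g / 2) ^ t) ^ 2 * 1 := h3.trans
          (mul_le_mul_of_nonneg_left hsq (sq_nonneg _))
      _ = _ := by ring
  have hc : 0 ≤ 1 - g / 2 := by linarith
  have h5 := abs_le_of_sq_le_sq h4 (pow_nonneg hc t)
  have h6 : (lwalk x)^[t] (fun b => (if b = h then (1 : ℝ) else 0) - 1 / N) a =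
      (lwalk x)^[t] (fun b => if b = h then (1 : ℝ) else 0) a - 1 / N := by
    rw [h1]
  rw [h6] at h5
  refine h5.trans ?_
  have h7 : (1 - g / 2) ^ t ≤ Real.exp (-(g * t / 2)) := by
    have h8 : 1 - g / 2 ≤ Real.exp (-(g / 2)) := by
      have := Real.add_one_le_exp (-(g / 2))
      linarith
    calc (1 - g / 2) ^ t ≤ Real.exp (-(g / 2)) ^ t := pow_le_pow_left₀ hc h8 t
      _ = _ := by rw [← Real.exp_nat_mul]; congr 1; ring
  refine h7.trans ?_
  have h9 : Real.exp (-(g * t / 2)) ≤ Real.exp (-Real.log (2 * N)) := by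
    apply Real.exp_le_exp.2
    linarith
  refine h9.trans (le_of_eq ?_)
  rw [Real.exp_neg, Real.exp_log (by positivity)]
  field_simp

end Pool.Agent.Helper56.NX
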